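import Pool.Agent.Lib.MP_234657_nt.Exists

namespace Pool.Agent.Results.MP_234657_nt.FirstCoeff

open Pool.Agent.Lib.MP_234657_nt

/-- For every odd squarefree `D`: every primitive character modulo `D` has a family of primitive
components, and there is `K₀` such that `a_{D,l,k,e}(1; χ) ≠ 0` for every admissible
non-degenerate `(χ, l, k, e)` with `χ` primitive modulo `D` and `k + l + 2 e ≥ K₀`. -/
theorem result (D : ℕ) (hodd : Odd D) (hsq : Squarefree D) :
    (∀ χ : DirichletCharacter ℂ D, χ.IsPrimitive →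
      ∃ comp : (d : ℕ) → DirichletCharacter ℂ d,
        IsDecomp χ comp ∧ ∀ d : ℕ, d ∣ D → (comp d).IsPrimitive) ∧
    ∃ K₀ : ℕ, ∀ (χ : DirichletCharacter ℂ D) (comp : (d : ℕ) → DirichletCharacter ℂ d)
      (l k e : ℕ), χ.IsPrimitive → IsDecomp χ comp → 3 ≤ l → l ≤ k → l % 2 = k % 2 →
      χ (-1) = (-1) ^ l → ¬ (l = k ∧ (∀ a, (χ a).im = 0) ∧ Odd e) → K₀ ≤ k + l + 2 * e →
      aa D comp l k e 1 ≠ 0 := by
  refine ⟨fun χ hχ => ?_, main_theorem D hodd hsq⟩
  obtain ⟨comp, h⟩ := exists_decomp hsq χ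
  exact ⟨comp, h, fun d hd => h.isPrimitive hsq.ne_zero hχ hd⟩

end Pool.Agent.Results.MP_234657_nt.FirstCoeff
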